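import Mathlib

/-!
# Ratios of n-th roots of generalized harmonic numbers

Full positive answer to Q1: for every `m ≥ 1` the sequence
`(H_(n+1)^(m)) ^ (1 / (n+1)) / (H_n^(m)) ^ (1 / n)`, `n ≥ 3`, is strictly increasing.
-/

set_option autoImplicit false

namespace N656.Shelf.RootRatiosKnown

open Finset

/-- the generalized harmonic number `H_n^(m)` -/
noncomputable def H (m n : ℕ) : ℝ := ∑ k ∈ Icc 1 n, 1 / (k : ℝ) ^ m

/-- the ratio `r_n^(m)` of consecutive roots -/
noncomputable def r (m n : ℕ) : ℝ :=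
  H m (n + 1) ^ (1 / ((n : ℝ) + 1)) / H m n ^ (1 / (n : ℝ))

theorem H_succ (m n : ℕ) : H m (n + 1) = H m n + 1 / ((n : ℝ) + 1) ^ m := by
  unfold H
  rw [sum_Icc_succ_top (by omega)]
  push_cast
  ring

theorem H_one (m : ℕ) : H m 1 = 1 := by
  unfold H
  simp

theorem H_three (m : ℕ) : H m 3 = 1 + 1 / 2 ^ m + 1 / 3 ^ m := by
  rw [H_succ, H_succ, H_one]
  norm_num

theorem H_mono (m : ℕ) {a b : ℕ} (h : a ≤ b) : H m a ≤ H m b := by
  unfold H
  apply sum_le_sum_of_subset_of_nonneg (Icc_subset_Icc_right h)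
  intro k _ _
  positivity

theorem H_ge_one (m : ℕ) {n : ℕ} (hn : 1 ≤ n) : 1 ≤ H m n := by
  rw [← H_one m]
  exact H_mono m hn

/-- reduction to logarithms -/
theorem r_lt {m n : ℕ} (hn : 1 ≤ n)
    (h : 2 * (n : ℝ) * (n + 2) * Real.log (H m (n + 1)) <
      (n : ℝ) * (n + 1) * Real.log (H m (n + 2)) + (n + 1) * (n + 2) * Real.log (H m n)) :
    r m n < r m (n + 1) := by
  have hn0 : (0 : ℝ) < n := by exact_mod_cast hn
  have h1 : 0 < H m n := by linarith [H_ge_one m hn]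
  have h2 : 0 < H m (n + 1) := by linarith [H_ge_one m (show 1 ≤ n + 1 by omega)]
  have h3 : 0 < H m (n + 2) := by linarith [H_ge_one m (show 1 ≤ n + 2 by omega)]
  have hr1 : 0 < r m n := by unfold r; positivity
  have hr2 : 0 < r m (n + 1) := by
    unfold r
    have : 0 < H m (n + 1 + 1) := h3
    positivity
  rw [← Real.log_lt_log_iff hr1 hr2]
  unfold r
  rw [show n + 1 + 1 = n + 2 by ring, Real.log_div (by positivity) (by positivity),
    Real.log_div (by positivity) (by positivity), Real.log_rpow h1, Real.log_rpow h2,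
    Real.log_rpow h2, Real.log_rpow h3]
  push_cast
  have e : (1 / ((n : ℝ) + 1 + 1) * Real.log (H m (n + 2)) - 1 / ((n : ℝ) + 1) * Real.log (H m (n + 1))) -
      (1 / ((n : ℝ) + 1) * Real.log (H m (n + 1)) - 1 / (n : ℝ) * Real.log (H m n)) =
      ((n : ℝ) * (n + 1) * Real.log (H m (n + 2)) + (n + 1) * (n + 2) * Real.log (H m n) -
        2 * (n : ℝ) * (n + 2) * Real.log (H m (n + 1))) / ((n : ℝ) * (n + 1) * (n + 2)) := by
    have h5 : (n : ℝ) + 1 + 1 = n + 2 := by ring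
    rw [h5]
    field_simp
    ring
  have h6 : 0 < ((n : ℝ) * (n + 1) * Real.log (H m (n + 2)) + (n + 1) * (n + 2) * Real.log (H m n) -
        2 * (n : ℝ) * (n + 2) * Real.log (H m (n + 1))) / ((n : ℝ) * (n + 1) * (n + 2)) := by
    apply div_pos _ (by positivity)
    linarith
  rw [← e] at h6
  linarith

/-- the main estimate -/
theorem step {m n : ℕ} (hn : 1 ≤ n) {u : ℝ} (hu : u = 1 / (((n : ℝ) + 1) ^ m * H m n))
    (h : n * u * (m + 2 + 2 * (n + 1) * u) < 2 * Real.log (H m n)) : r m n < r m (n + 1) := by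
  apply r_lt hn
  have hn0 : (0 : ℝ) < n := by exact_mod_cast hn
  set A := H m n with hA
  have hA1 : 1 ≤ A := H_ge_one m hn
  have hA0 : 0 < A := by linarith
  have hu0 : 0 < u := by rw [hu]; positivity
  have e1 : H m (n + 1) = A * (1 + u) := by
    rw [H_succ, ← hA, hu]
    field_simp
  set w : ℝ := 1 / ((n : ℝ) + 2) ^ m with hw
  have hw0 : 0 < w := by rw [hw]; positivity
  have e2 : H m (n + 2) = A * (1 + u) + w := by
    rw [show n + 2 = (n + 1) + 1 by ring, H_succ, e1, hw]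
    push_cast
    ring_nf
  set v : ℝ := w / (A * (1 + u)) with hv
  have hv0 : 0 < v := by rw [hv]; positivity
  have e3 : H m (n + 2) = A * (1 + u) * (1 + v) := by
    rw [e2, hv]
    field_simp
  -- the comparison of `w` and `u`
  have hwu : w ≤ A * u := by
    rw [hw, hu]
    have : A * (1 / (((n : ℝ) + 1) ^ m * A)) = 1 / ((n : ℝ) + 1) ^ m := by field_simp
    rw [this]
    apply one_div_le_one_div_of_le (by positivity)
    exact pow_le_pow_left₀ (by positivity) (by linarith) m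
  have hber : A * u * (1 - m / ((n : ℝ) + 2)) ≤ w := by
    have h1 : A * u = 1 / ((n : ℝ) + 1) ^ m := by rw [hu]; field_simp
    have h2 : 1 + (m : ℝ) * (-(1 / ((n : ℝ) + 2))) ≤ (1 + (-(1 / ((n : ℝ) + 2)))) ^ m := by
      apply one_add_mul_le_pow
      have : 1 / ((n : ℝ) + 2) ≤ 1 := by
        rw [div_le_one (by positivity)]
        linarith
      linarith
    have h3 : (1 + (-(1 / ((n : ℝ) + 2)))) = ((n : ℝ) + 1) / (n + 2) := by
      field_simp
      ring
    rw [h3, div_pow] at h2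
    rw [h1, hw]
    have h4 : 1 / ((n : ℝ) + 2) ^ m = 1 / ((n : ℝ) + 1) ^ m * (((n : ℝ) + 1) ^ m / ((n : ℝ) + 2) ^ m) := by
      field_simp
    rw [h4]
    apply mul_le_mul_of_nonneg_left _ (by positivity)
    calc 1 - (m : ℝ) / ((n : ℝ) + 2) = 1 + (m : ℝ) * (-(1 / ((n : ℝ) + 2))) := by ring
      _ ≤ _ := h2
  have hvu : v ≤ u := by
    rw [hv, div_le_iff₀ (by positivity)]
    nlinarith [mul_pos hA0 (mul_pos hu0 hu0)]
  have hd1 : Real.log (1 + u) ≤ u := by
    have := Real.log_le_sub_one_of_pos (show 0 < 1 + u by linarith)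
    linarith
  have hd2 : v / (1 + v) ≤ Real.log (1 + v) := by
    have := Real.one_sub_inv_le_log_of_pos (show 0 < 1 + v by linarith)
    calc v / (1 + v) = 1 - (1 + v)⁻¹ := by field_simp; ring
      _ ≤ _ := this
  -- `log (1 + v) ≥ w / A - 2 u ^ 2`
  have hd3 : w / A - 2 * u ^ 2 ≤ v / (1 + v) := by
    have h1 : v / (1 + u) ≤ v / (1 + v) := by
      apply div_le_div_of_nonneg_left hv0.le (by linarith) (by linarith)
    refine le_trans ?_ h1
    have h2 : v / (1 + u) = w / A / (1 + u) ^ 2 := by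
      rw [hv]
      field_simp
    rw [h2, le_div_iff₀ (by positivity)]
    set q : ℝ := w / A with hq
    have hq0 : 0 < q := by rw [hq]; positivity
    have hqu : q ≤ u := by
      rw [hq, div_le_iff₀ hA0]
      linarith
    nlinarith [mul_pos hu0 hu0, mul_pos (mul_pos hu0 hu0) hu0, mul_pos hq0 hu0,
      mul_le_mul_of_nonneg_right hqu (mul_pos hu0 hu0).le, mul_le_mul_of_nonneg_right hqu hu0.le,
      pow_pos hu0 4]
  have hd4 : u * (1 - m / ((n : ℝ) + 2)) ≤ w / A := by
    rw [le_div_iff₀ hA0]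
    linarith
  have hd5 : (n : ℝ) * (n + 1) * (u * (1 - m / ((n : ℝ) + 2))) ≥ n * (n + 1) * u - n * m * u := by
    have h1 : ((n : ℝ) + 1) * (m / ((n : ℝ) + 2)) ≤ m := by
      rw [mul_div_assoc', div_le_iff₀ (by positivity)]
      have : (0 : ℝ) ≤ m := Nat.cast_nonneg m
      nlinarith
    have h2 := mul_le_mul_of_nonneg_left h1 (mul_pos hn0 hu0).le
    nlinarith
  have hn1 : (0 : ℝ) < n * (n + 1) := by positivity
  have hd6 := mul_le_mul_of_nonneg_left (hd3.trans hd2) hn1.le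
  have hd7 := mul_le_mul_of_nonneg_left hd4 hn1.le
  have hd8 := mul_le_mul_of_nonneg_left hd1 (show (0 : ℝ) ≤ n ^ 2 + 3 * n by positivity)
  rw [e3, e1, Real.log_mul (by positivity) (by positivity), Real.log_mul (by positivity) (by positivity),
    Real.log_mul (by positivity) (by positivity)]
  nlinarith

/-- the case `m ≥ 3` -/
theorem case3 {m n : ℕ} (hm : 3 ≤ m) (hn : 3 ≤ n) : r m n < r m (n + 1) := by
  refine step (by omega) rfl ?_
  have hn3 : (3 : ℝ) ≤ n := by exact_mod_cast hn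
  set A := H m n with hA
  have hA3 : 1 + 1 / 2 ^ m + 1 / 3 ^ m ≤ A := by
    rw [← H_three]
    exact H_mono m hn
  have h3m : (0 : ℝ) < 1 / 3 ^ m := by positivity
  have h2m : (0 : ℝ) < 1 / 2 ^ m := by positivity
  have hA1 : 1 ≤ A := by linarith
  have hA0 : 0 < A := by linarith
  obtain ⟨k, rfl⟩ : ∃ k, m = k + 3 := ⟨m - 3, by omega⟩
  -- `2 (n+1) u ≤ 1/8`
  have hp : (4 : ℝ) ^ (k + 2) ≤ ((n : ℝ) + 1) ^ (k + 2) :=
    pow_le_pow_left₀ (by norm_num) (by linarith) _
  have hp16 : (16 : ℝ) ≤ 4 ^ (k + 2) := by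
    have : (1 : ℝ) ≤ 4 ^ k := one_le_pow₀ (by norm_num)
    calc (16 : ℝ) = 1 * 16 := by norm_num
      _ ≤ 4 ^ k * 16 := by linarith
      _ = 4 ^ (k + 2) := by ring
  have hu1 : 2 * ((n : ℝ) + 1) * (1 / (((n : ℝ) + 1) ^ (k + 3) * A)) ≤ 1 / 8 := by
    have e : 2 * ((n : ℝ) + 1) * (1 / (((n : ℝ) + 1) ^ (k + 3) * A)) =
        2 / (((n : ℝ) + 1) ^ (k + 2) * A) := by
      rw [pow_succ ((n : ℝ) + 1) (k + 2)]
      field_simp
    rw [e, div_le_div_iff₀ (by positivity) (by norm_num)]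
    nlinarith [mul_le_mul (hp16.trans hp) hA1 (by norm_num) (by positivity)]
  -- `n u ≤ 3 / 4 ^ m / A`
  have hnu : (n : ℝ) * (1 / (((n : ℝ) + 1) ^ (k + 3) * A)) ≤ 3 / 4 ^ (k + 3) / A := by
    have hq : (4 : ℝ) ^ (k + 1) ≤ ((n : ℝ) + 1) ^ (k + 1) :=
      pow_le_pow_left₀ (by norm_num) (by linarith) _
    rw [div_div, mul_one_div, div_le_div_iff₀ (by positivity) (by positivity)]
    have h1 : 16 * (n : ℝ) ≤ 3 * (n + 1) ^ 2 := by nlinarith
    have h2 : (16 * (n : ℝ)) * 4 ^ (k + 1) ≤ (3 * (n + 1) ^ 2) * ((n : ℝ) + 1) ^ (k + 1) :=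
      mul_le_mul h1 hq (by positivity) (by positivity)
    have h3 := mul_le_mul_of_nonneg_right h2 hA0.le
    calc (n : ℝ) * (4 ^ (k + 3) * A) = 16 * (n : ℝ) * 4 ^ (k + 1) * A := by ring
      _ ≤ 3 * (n + 1) ^ 2 * ((n : ℝ) + 1) ^ (k + 1) * A := h3
      _ = 3 * (((n : ℝ) + 1) ^ (k + 3) * A) := by ring
  have hlog : 1 - 1 / A ≤ Real.log A := by
    have := Real.one_sub_inv_le_log_of_pos hA0
    rwa [← one_div] at this
  have hA2 : 1 / 2 ^ (k + 3) < A - 1 := by linarith
  have hlog2 : 1 / 2 ^ (k + 3) / A < Real.log A := by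
    refine lt_of_lt_of_le ?_ hlog
    rw [div_lt_iff₀ hA0]
    calc (1 : ℝ) / 2 ^ (k + 3) < A - 1 := hA2
      _ = (1 - 1 / A) * A := by field_simp
  -- the numerical inequality
  have hnum : 3 * ((k : ℝ) + 3 + 2 + 1 / 8) < 2 * 2 ^ (k + 3) := by
    have hk : ∀ k : ℕ, (k : ℝ) + 1 ≤ 2 ^ k := by
      intro k
      have := Nat.lt_two_pow_self (n := k)
      exact_mod_cast this
    have h1 := hk k
    calc 3 * ((k : ℝ) + 3 + 2 + 1 / 8) < 16 * ((k : ℝ) + 1) := by
          have : (0 : ℝ) ≤ k := Nat.cast_nonneg k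
          linarith
      _ ≤ 16 * 2 ^ k := by linarith
      _ = 2 * 2 ^ (k + 3) := by ring
  have hmain : 3 / 4 ^ (k + 3) / A * ((k : ℝ) + 3 + 2 + 1 / 8) < 2 * (1 / 2 ^ (k + 3) / A) := by
    have h4 : (4 : ℝ) ^ (k + 3) = 2 ^ (k + 3) * 2 ^ (k + 3) := by
      rw [← mul_pow]
      norm_num
    rw [h4]
    have e1 : 3 / (2 ^ (k + 3) * 2 ^ (k + 3)) / A * ((k : ℝ) + 3 + 2 + 1 / 8) =
        3 * ((k : ℝ) + 3 + 2 + 1 / 8) / (2 ^ (k + 3) * 2 ^ (k + 3) * A) := by
      field_simp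
    have e2 : 2 * (1 / 2 ^ (k + 3) / A) = (2 * 2 ^ (k + 3)) / (2 ^ (k + 3) * 2 ^ (k + 3) * A) := by
      field_simp
    rw [e1, e2]
    exact div_lt_div_of_pos_right hnum (by positivity)
  have hk0 : (0 : ℝ) ≤ k := Nat.cast_nonneg k
  calc (n : ℝ) * (1 / (((n : ℝ) + 1) ^ (k + 3) * A)) *
        (((k + 3 : ℕ) : ℝ) + 2 + 2 * ((n : ℝ) + 1) * (1 / (((n : ℝ) + 1) ^ (k + 3) * A)))
      ≤ 3 / 4 ^ (k + 3) / A * ((k : ℝ) + 3 + 2 + 1 / 8) := by
        apply mul_le_mul hnu _ (by positivity) (by positivity)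
        push_cast
        linarith
    _ < 2 * (1 / 2 ^ (k + 3) / A) := hmain
    _ < 2 * Real.log A := by linarith

/-- the case `m = 2` -/
theorem case2 {n : ℕ} (hn : 3 ≤ n) : r 2 n < r 2 (n + 1) := by
  refine step (by omega) rfl ?_
  have hn3 : (3 : ℝ) ≤ n := by exact_mod_cast hn
  set A := H 2 n with hA
  have hA3 : 49 / 36 ≤ A := by
    have := H_mono 2 hn
    rw [H_three] at this
    norm_num at this
    linarith
  have hA0 : 0 < A := by linarith
  have hlog : 26 / 85 ≤ Real.log A := by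
    have h1 := Real.le_log_one_add_of_nonneg (show (0 : ℝ) ≤ 13 / 36 by norm_num)
    have h2 : Real.log (1 + 13 / 36) ≤ Real.log A := Real.log_le_log (by norm_num) (by linarith)
    norm_num at h1
    norm_num at h2
    linarith
  have hinv : 1 / A ≤ 36 / 49 := by
    rw [div_le_div_iff₀ hA0 (by norm_num)]
    linarith
  have hnu : (n : ℝ) * (1 / (((n : ℝ) + 1) ^ 2 * A)) ≤ 3 / 16 * (36 / 49) := by
    have h1 : (n : ℝ) * (1 / (((n : ℝ) + 1) ^ 2 * A)) = (n / ((n : ℝ) + 1) ^ 2) * (1 / A) := by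
      field_simp
    rw [h1]
    apply mul_le_mul _ hinv (by positivity) (by norm_num)
    rw [div_le_div_iff₀ (by positivity) (by norm_num)]
    nlinarith
  have hu1 : 2 * ((n : ℝ) + 1) * (1 / (((n : ℝ) + 1) ^ 2 * A)) ≤ 18 / 49 := by
    have h1 : 2 * ((n : ℝ) + 1) * (1 / (((n : ℝ) + 1) ^ 2 * A)) = (2 / ((n : ℝ) + 1)) * (1 / A) := by
      field_simp
    rw [h1]
    calc (2 / ((n : ℝ) + 1)) * (1 / A) ≤ (1 / 2) * (36 / 49) := by
          apply mul_le_mul _ hinv (by positivity) (by norm_num)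
          rw [div_le_div_iff₀ (by positivity) (by norm_num)]
          linarith
      _ = 18 / 49 := by norm_num
  calc (n : ℝ) * (1 / (((n : ℝ) + 1) ^ 2 * A)) *
        (((2 : ℕ) : ℝ) + 2 + 2 * ((n : ℝ) + 1) * (1 / (((n : ℝ) + 1) ^ 2 * A)))
      ≤ 3 / 16 * (36 / 49) * (2 + 2 + 18 / 49) := by
        apply mul_le_mul hnu _ (by positivity) (by norm_num)
        push_cast
        linarith
    _ < 2 * (26 / 85) := by norm_num
    _ ≤ 2 * Real.log A := by linarith

theorem H_pos {m n : ℕ} (hn : 1 ≤ n) : 0 < H m n := by linarith [H_ge_one m hn]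

/-- from rational powers to logarithms -/
theorem log_ineq {a b c : ℕ} {x y z : ℝ} (hx : 0 < x) (hy : 0 < y) (hz : 0 < z)
    (h : x ^ a < y ^ b * z ^ c) : (a : ℝ) * Real.log x < b * Real.log y + c * Real.log z := by
  have h1 := Real.log_lt_log (by positivity) h
  rw [Real.log_mul (by positivity) (by positivity), Real.log_pow, Real.log_pow, Real.log_pow] at h1
  exact h1

theorem H13 : H 1 3 = 11 / 6 := by rw [H_three]; norm_num
theorem H14 : H 1 4 = 25 / 12 := by rw [H_succ, H13]; norm_num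
theorem H15 : H 1 5 = 137 / 60 := by rw [H_succ, H14]; norm_num
theorem H16 : H 1 6 = 49 / 20 := by rw [H_succ, H15]; norm_num
theorem H17 : H 1 7 = 363 / 140 := by rw [H_succ, H16]; norm_num

/-- the case `m = 1` -/
theorem case1 {n : ℕ} (hn : 3 ≤ n) : r 1 n < r 1 (n + 1) := by
  rcases Nat.lt_or_ge n 6 with h6 | h6
  · interval_cases n
    · apply r_lt (by norm_num)
      rw [H13, show 3 + 1 = 4 by norm_num, show 3 + 2 = 5 by norm_num, H14, H15]
      have := log_ineq (a := 30) (b := 12) (c := 20) (x := 25 / 12) (y := 137 / 60) (z := 11 / 6)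
        (by norm_num) (by norm_num) (by norm_num) (by norm_num)
      norm_num at this ⊢
      linarith
    · apply r_lt (by norm_num)
      rw [H14, show 4 + 1 = 5 by norm_num, show 4 + 2 = 6 by norm_num, H15, H16]
      have := log_ineq (a := 24) (b := 10) (c := 15) (x := 137 / 60) (y := 49 / 20) (z := 25 / 12)
        (by norm_num) (by norm_num) (by norm_num) (by norm_num)
      norm_num at this ⊢
      linarith
    · apply r_lt (by norm_num)
      rw [H15, show 5 + 1 = 6 by norm_num, show 5 + 2 = 7 by norm_num, H16, H17]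
      have := log_ineq (a := 35) (b := 15) (c := 21) (x := 49 / 20) (y := 363 / 140) (z := 137 / 60)
        (by norm_num) (by norm_num) (by norm_num) (by norm_num)
      norm_num at this ⊢
      linarith
  · refine step (by omega) rfl ?_
    have hn6 : (6 : ℝ) ≤ n := by exact_mod_cast h6
    set A := H 1 n with hA
    have hA3 : 49 / 20 ≤ A := by
      rw [← H16]
      exact H_mono 1 h6
    have hA0 : 0 < A := by linarith
    have hlog : 58 / 69 ≤ Real.log A := by
      have h1 := Real.le_log_one_add_of_nonneg (show (0 : ℝ) ≤ 29 / 20 by norm_num)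
      have h2 : Real.log (1 + 29 / 20) ≤ Real.log A := Real.log_le_log (by norm_num) (by linarith)
      norm_num at h1
      norm_num at h2
      linarith
    have hinv : 1 / A ≤ 20 / 49 := by
      rw [div_le_div_iff₀ hA0 (by norm_num)]
      linarith
    have hnu : (n : ℝ) * (1 / (((n : ℝ) + 1) ^ 1 * A)) ≤ 20 / 49 := by
      have h1 : (n : ℝ) * (1 / (((n : ℝ) + 1) ^ 1 * A)) = (n / ((n : ℝ) + 1)) * (1 / A) := by
        field_simp
      rw [h1]
      calc (n / ((n : ℝ) + 1)) * (1 / A) ≤ 1 * (20 / 49) := by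
            apply mul_le_mul _ hinv (by positivity) (by norm_num)
            rw [div_le_one (by positivity)]
            linarith
        _ = 20 / 49 := by norm_num
    have hu1 : 2 * ((n : ℝ) + 1) * (1 / (((n : ℝ) + 1) ^ 1 * A)) ≤ 40 / 49 := by
      have h1 : 2 * ((n : ℝ) + 1) * (1 / (((n : ℝ) + 1) ^ 1 * A)) = 2 * (1 / A) := by
        field_simp
      rw [h1]
      linarith
    calc (n : ℝ) * (1 / (((n : ℝ) + 1) ^ 1 * A)) *
          (((1 : ℕ) : ℝ) + 2 + 2 * ((n : ℝ) + 1) * (1 / (((n : ℝ) + 1) ^ 1 * A)))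
        ≤ 20 / 49 * (1 + 2 + 40 / 49) := by
          apply mul_le_mul hnu _ (by positivity) (by norm_num)
          push_cast
          linarith
      _ < 2 * (58 / 69) := by norm_num
      _ ≤ 2 * Real.log A := by linarith

/-- For every positive integer `m` the sequence `r_n^(m)`, `n ≥ 3`, is strictly increasing. -/
theorem result (m : ℕ) (hm : 1 ≤ m) (n : ℕ) (hn : 3 ≤ n) : r m n < r m (n + 1) := by
  rcases (by omega : m = 1 ∨ m = 2 ∨ 3 ≤ m) with rfl | rfl | h3
  · exact case1 hn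
  · exact case2 hn
  · exact case3 h3 hn

end N656.Shelf.RootRatiosKnown
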